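import Mathlib

namespace Pool.Agent.H.MP_b27eb5_al

universe u

/-- the free nonassociative algebra on countably many generators -/
abbrev Fr (F : Type u) [Field F] : Type u := FreeNonUnitalNonAssocAlgebra F ℕ

section

variable (F : Type u) [Field F] (B : Type u) [NonUnitalNonAssocRing B] [Module F B]

/-- `B` satisfies all the identities in `T` -/
def Sat (T : Set (Fr F)) : Prop := ∀ f ∈ T, ∀ g : Fr F →ₙₐ[F] B, g f = 0

/-- `B` is simple -/
def IsSimple : Prop :=
  (∃ a b : B, a * b ≠ 0) ∧
    ∀ I : Submodule F B, (∀ a : B, ∀ x ∈ I, a * x ∈ I ∧ x * a ∈ I) → I = ⊥ ∨ I = ⊤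

variable [IsScalarTower F B B] [SMulCommClass F B B]

/-- every finitely generated subalgebra of `B` is nilpotent -/
def LocNil : Prop :=
  ∀ s : Finset B, ∃ n : ℕ, ∀ w : FreeMagma (NonUnitalAlgebra.adjoin F (s : Set B)),
    n ≤ w.length → FreeMagma.lift Subtype.val w = (0 : B)

end

/-- `B` is a commutative associative division algebra -/
def IsFld (B : Type u) [NonUnitalNonAssocRing B] : Prop :=
  (∀ a b : B, a * b = b * a) ∧ (∀ a b c : B, a * b * c = a * (b * c)) ∧
    ∃ e : B, e ≠ 0 ∧ (∀ a : B, e * a = a) ∧ ∀ a : B, a ≠ 0 → ∃ b : B, a * b = e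

/-- the commutator -/
def cm {B : Type u} [NonUnitalNonAssocRing B] (a b : B) : B := a * b - b * a

/-- the Kokoris identity -/
def IsKokoris (B : Type u) [NonUnitalNonAssocRing B] : Prop :=
  ∀ a b c : B, cm (cm a b) c + cm (cm b c) a + cm (cm c a) b =
    4 • (a * b * c - a * (b * c)) - cm (cm a c) b

section

variable (F : Type u) [Field F]

/-- every anticommutative algebra of the variety defined by `T` is locally nilpotent -/
def LocAdm (T : Set (Fr F)) : Prop :=
  ∀ (B : Type u) [NonUnitalNonAssocRing B] [Module F B] [IsScalarTower F B B]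
    [SMulCommClass F B B], Sat F B T → (∀ b : B, b * b = 0) → LocNil F B

/-- `f` is an identity of the variety defined by `T` -/
def IsId (T : Set (Fr F)) (f : Fr F) : Prop :=
  ∀ (B : Type u) [NonUnitalNonAssocRing B] [Module F B] [IsScalarTower F B B]
    [SMulCommClass F B B], Sat F B T → Sat F B {f}

/-- the variety defined by `T` is admissible -/
def Adm (T : Set (Fr F)) : Prop :=
  ∃ n : ℕ, ∀ w : FreeMagma (Fr F), n ≤ w.length →
    ∃ g ∈ Submodule.span F {p : Fr F | ∃ a b : Fr F, p = a * b + b * a},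
      IsId F T (FreeMagma.lift id w - g)

end

end Pool.Agent.H.MP_b27eb5_al
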