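import Pool.Agent.H.MP_b27eb5_al.Var

set_option maxHeartbeats 400000

namespace Pool.Agent.H.MP_b27eb5_al

universe u

open Polynomial

/-- derivations lower ideal powers by at most one -/
theorem der_pow {R : Type u} [CommRing R] (d : R → R) (hadd : ∀ a b, d (a + b) = d a + d b)
    (hl : ∀ a b, d (a * b) = d a * b + a * d b) (M : Ideal R) (k : ℕ) :
    ∀ y ∈ M ^ (k + 1), d y ∈ M ^ k := by
  induction k with
  | zero => intro y _; simp
  | succ k ih =>
    intro y hy
    rw [pow_succ] at hy
    refine Submodule.mul_induction_on hy ?_ ?_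
    · intro a ha b hb
      rw [hl]
      apply Ideal.add_mem
      · rw [pow_succ]; exact Ideal.mul_mem_mul (ih a ha) hb
      · exact Ideal.mul_mem_right _ _ ha
    · intro a b ha hb
      rw [hadd]; exact Ideal.add_mem _ ha hb

/-- a generic Poisson bracket -/
structure GP (F R : Type u) [Field F] [CommRing R] [Algebra F R] where
  br : R →ₗ[F] R →ₗ[F] R
  anti : ∀ a b, br a b = - br b a
  leib : ∀ a b c, br a (b * c) = br a b * c + b * br a c

variable {F R : Type u} [Field F] [CommRing R] [Algebra F R]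

namespace GP

variable (β : GP F R)

/-- the Kokoris product -/
noncomputable def m : R →ₗ[F] R →ₗ[F] R := LinearMap.mul F R + β.br

theorem m_apply (a b : R) : β.m a b = a * b + β.br a b := by simp [m]

theorem leib' (a b c : R) : β.br (a * b) c = β.br a c * b + a * β.br b c := by
  rw [β.anti, β.leib, β.anti c a, β.anti c b]; ring

theorem self (h2 : (2 : F) ≠ 0) (a : R) : β.br a a = 0 := by
  have h := β.anti a a
  have : (2 : F) • β.br a a = 0 := by
    rw [two_smul]; nth_rewrite 1 [h]; simp
  exact (smul_eq_zero.1 this).resolve_left h2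

theorem one_right (a : R) : β.br a 1 = 0 := by
  have := β.leib a 1 1
  simpa using this

theorem br_pow (M : Ideal R) (k : ℕ) (a y : R) (hy : y ∈ M ^ (k + 1)) : β.br a y ∈ M ^ k :=
  der_pow (β.br a) (fun _ _ => map_add _ _ _) (β.leib a) M k y hy

theorem br_pow_two (M : Ideal R) (k : ℕ) (a y : R) (ha : a ∈ M ^ 2) (hy : y ∈ M ^ (k + 1)) :
    β.br a y ∈ M ^ (k + 1) := by
  rw [pow_two] at ha
  refine Submodule.mul_induction_on ha ?_ ?_
  · intro a1 h1 a2 h2
    rw [β.leib', pow_succ]
    apply Ideal.add_mem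
    · exact Ideal.mul_mem_mul (β.br_pow M k _ _ hy) h2
    · rw [mul_comm a1]; exact Ideal.mul_mem_mul (β.br_pow M k _ _ hy) h1
  · intro a b ha hb
    rw [map_add, LinearMap.add_apply]; exact Ideal.add_mem _ ha hb

theorem mul3 (M : Ideal R) {a b c : R} (ha : a ∈ M) (hb : b ∈ M) (hc : c ∈ M) :
    a * b * c ∈ M ^ 3 := by
  rw [pow_succ, pow_two]
  exact Ideal.mul_mem_mul (Ideal.mul_mem_mul ha hb) hc

/-- the section `M ^ 2 / M ^ 3` -/
theorem pow_mem (h2 : (2 : F) ≠ 0) {T : Set (Fr F)} (hT : LocAdm F T) (hsat : Sat F (Alg β.m) T)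
    (M : Ideal R) (x y : R) (hx : x ∈ M) (hy : y ∈ M) : ∃ n : ℕ, β.br x y ^ n ∈ M := by
  have hxy : x * y ∈ M ^ 2 := by rw [pow_two]; exact Ideal.mul_mem_mul hx hy
  have hxx : x * x ∈ M ^ 2 := by rw [pow_two]; exact Ideal.mul_mem_mul hx hx
  have h21 : M ^ 2 ≤ M := Ideal.pow_le_self two_ne_zero
  obtain ⟨n, hn⟩ := section_nil β.m hT hsat ((M ^ 2).restrictScalars F) ((M ^ 3).restrictScalars F)
    (by
      intro a ha b hb
      rw [Submodule.restrictScalars_mem] at *
      rw [m_apply]
      exact Ideal.add_mem _ (Ideal.mul_mem_left _ _ hb) (β.br_pow_two M 1 a b ha hb))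
    (by
      intro a ha b _ hb
      rw [Submodule.restrictScalars_mem] at *
      rw [Submodule.restrictScalars_mem, m_apply, m_apply, β.anti b a]
      exact ⟨Ideal.add_mem _ (Ideal.mul_mem_left _ _ hb) (β.br_pow_two M 2 a b ha hb),
        Ideal.add_mem _ (Ideal.mul_mem_right _ _ hb)
          (neg_mem (β.br_pow_two M 2 a b ha hb))⟩)
    (by
      intro a ha
      rw [Submodule.restrictScalars_mem] at *
      rw [m_apply, β.self h2, add_zero, pow_succ]
      exact Ideal.mul_mem_mul ha (h21 ha))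
    (x * y) (x * x) ((Submodule.restrictScalars_mem _ _ _).2 hxy)
    ((Submodule.restrictScalars_mem _ _ _).2 hxx)
  rw [Submodule.restrictScalars_mem] at hn
  set c := β.br x y with hc
  have hyx : β.br y x = -c := β.anti y x
  have key : ∀ k : ℕ, (β.m (x * y))^[k] (x * x) - (-2 * c) ^ k * (x * x) ∈ M ^ 3 := by
    intro k
    induction k with
    | zero => simp
    | succ k ih =>
      rw [Function.iterate_succ_apply']
      set v := (β.m (x * y))^[k] (x * x) with hv
      set u := (-2 * c) ^ k with hu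
      have e1 : β.m (x * y) v - (-2 * c) ^ (k + 1) * (x * x) =
          (x * y * (v - u * (x * x)) + β.br (x * y) (v - u * (x * x))) +
            x * x * (x * y * u) + x * x * (β.br x u * y) + x * x * (x * β.br y u) := by
        have e2 : β.br (x * y) (u * (x * x)) =
            (β.br x u * y + x * β.br y u) * (x * x) + u * (-2 * c) * (x * x) := by
          rw [β.leib, β.leib, β.leib', β.leib', β.self h2, hyx]; ring
        rw [m_apply, map_sub, e2, pow_succ, ← hu]; ring
      rw [e1]
      refine Ideal.add_mem _ (Ideal.add_mem _ (Ideal.add_mem _ (Ideal.add_mem _ ?_ ?_) ?_) ?_) ?_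
      · exact Ideal.mul_mem_left _ _ ih
      · exact β.br_pow_two M 2 _ _ hxy ih
      · exact mul3 M hx hx (Ideal.mul_mem_right _ _ (Ideal.mul_mem_right _ _ hx))
      · exact mul3 M hx hx (Ideal.mul_mem_left _ _ hy)
      · exact mul3 M hx hx (Ideal.mul_mem_right _ _ hx)
  have h3 : (-2 * c) ^ n * (x * x) ∈ M ^ 3 := by
    have := Ideal.sub_mem _ hn (key n)
    simpa using this
  set u := (-2 * c) ^ n with hu
  have h4 := β.br_pow M 1 y _ (β.br_pow M 2 y _ h3)
  rw [pow_one] at h4
  have e3 : β.br y (u * (x * x)) = (β.br y u * x - 2 * c * u) * x := by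
    rw [β.leib, β.leib, hyx]; ring
  rw [e3, β.leib, hyx] at h4
  have h5 : 2 * c * u * c ∈ M := by
    have e4 : 2 * c * u * c = (β.br y (β.br y u * x - 2 * c * u) * x +
      (β.br y u * x - 2 * c * u) * -c) - x * (β.br y (β.br y u * x - 2 * c * u) - β.br y u * c) := by
      ring
    rw [e4]
    exact Ideal.sub_mem _ h4 (Ideal.mul_mem_right _ _ hx)
  refine ⟨n + 2, ?_⟩
  have hunit : algebraMap F R (2⁻¹) * 2 = 1 := by
    rw [← map_ofNat (algebraMap F R) 2, ← map_mul, inv_mul_cancel₀ h2, map_one]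
  have e5 : c ^ (n + 2) = (algebraMap F R (2⁻¹)) ^ (n + 1) * (-1) ^ n * (2 * c * u * c) := by
    have e6 : (algebraMap F R (2⁻¹)) ^ (n + 1) * (-1) ^ n * (2 * c * u * c) =
        (algebraMap F R (2⁻¹) * 2) ^ (n + 1) * ((-1) * (-1)) ^ n * c ^ (n + 2) := by
      rw [hu, show (-2 * c) = (-1) * 2 * c by ring, mul_pow, mul_pow, mul_pow, mul_pow]; ring
    rw [e6, hunit]; simp
  rw [e5]
  exact Ideal.mul_mem_left _ _ h5

/-- Casimir elements -/
def Cas (z : R) : Prop := ∀ a, β.br a z = 0

theorem Cas.mul_right {β : GP F R} {z : R} (hz : β.Cas z) (a b : R) :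
    β.br a (b * z) = β.br a b * z := by
  rw [β.leib, hz a]; simp

theorem Cas.mul_left {β : GP F R} {z : R} (hz : β.Cas z) (a b : R) :
    β.br (a * z) b = β.br a b * z := by
  rw [β.anti, hz.mul_right, β.anti b a]; ring

theorem Cas.pow {β : GP F R} {z : R} (hz : β.Cas z) (k : ℕ) : β.Cas (z ^ k) := by
  induction k with
  | zero => intro a; simpa using β.one_right a
  | succ k ih => intro a; rw [pow_succ, hz.mul_right, ih a, zero_mul]

/-- an infinite set of Casimir elements whose differences are units -/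
def Good (S : Set R) : Prop :=
  S.Infinite ∧ (∀ z ∈ S, β.Cas z) ∧ ∀ z ∈ S, ∀ w ∈ S, z ≠ w → IsUnit (z - w)

theorem poly_eq_zero (n : ℕ) : ∀ (S : Set R), S.Infinite →
    (∀ z ∈ S, ∀ w ∈ S, z ≠ w → IsUnit (z - w)) → ∀ p : R[X], p.natDegree ≤ n →
      (∀ z ∈ S, p.eval z = 0) → p = 0 := by
  induction n with
  | zero =>
    intro S hS _ p hp h
    obtain ⟨z, hz⟩ := hS.nonempty
    have := h z hz
    rw [eq_C_of_natDegree_le_zero hp] at this ⊢
    rw [eval_C] at this
    rw [this, C_0]
  | succ n ih =>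
    intro S hS hu p hp h
    obtain ⟨z, hz⟩ := hS.nonempty
    have h1 : (X - C z) * (p /ₘ (X - C z)) = p := mul_divByMonic_eq_iff_isRoot.2 (h z hz)
    have h2 : p /ₘ (X - C z) = 0 := by
      apply ih (S \ {z}) (hS.diff (Set.finite_singleton z))
        (fun a ha b hb hab => hu a ha.1 b hb.1 hab)
      · nontriviality R
        rw [natDegree_divByMonic _ (monic_X_sub_C z), natDegree_X_sub_C]; omega
      · intro w hw
        have h3 := h w hw.1
        rw [← h1, eval_mul, eval_sub, eval_X, eval_C] at h3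
        exact (hu w hw.1 z hz hw.2).mul_right_eq_zero.1 h3
    rw [← h1, h2, mul_zero]

theorem Good.ext {β : GP F R} {S : Set R} (hS : β.Good S) {p q : R[X]}
    (h : ∀ z ∈ S, p.eval z = q.eval z) : p = q := by
  rw [← sub_eq_zero]
  exact poly_eq_zero _ S hS.1 hS.2.2 _ le_rfl (fun z hz => by rw [eval_sub, h z hz, sub_self])

/-- coefficientwise bracket of polynomials -/
noncomputable def pbr (p q : R[X]) : R[X] :=
  p.sum fun i a => q.sum fun j b => monomial (i + j) (β.br a b)

theorem eval_pbr {z : R} (hz : β.Cas z) (p q : R[X]) :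
    (β.pbr p q).eval z = β.br (p.eval z) (q.eval z) := by
  rw [eval_eq_sum (p := p), eval_eq_sum (p := q)]
  simp only [pbr, Polynomial.sum, eval_finset_sum, map_sum, LinearMap.sum_apply, eval_monomial]
  rw [Finset.sum_comm]
  refine Finset.sum_congr rfl fun i _ => Finset.sum_congr rfl fun j _ => ?_
  rw [(hz.pow _).mul_left, (hz.pow _).mul_right]; ring

theorem eval_smul' (r : F) (p : R[X]) (z : R) : (r • p).eval z = r • p.eval z := by
  rw [eval_smul]

/-- the extension of a bracket to the polynomial ring -/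
noncomputable def poly {S : Set R} (hS : β.Good S) : GP F R[X] where
  br := LinearMap.mk₂ F β.pbr
    (fun a b c => hS.ext fun z hz => by simp [β.eval_pbr (hS.2.1 z hz)])
    (fun r a b => hS.ext fun z hz => by simp [β.eval_pbr (hS.2.1 z hz)])
    (fun a b c => hS.ext fun z hz => by simp [β.eval_pbr (hS.2.1 z hz)])
    (fun r a b => hS.ext fun z hz => by simp [β.eval_pbr (hS.2.1 z hz)])
  anti := fun a b => hS.ext fun z hz => by
    simp only [LinearMap.mk₂_apply, eval_neg, β.eval_pbr (hS.2.1 z hz)]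
    exact β.anti _ _
  leib := fun a b c => hS.ext fun z hz => by
    simp only [LinearMap.mk₂_apply, eval_add, eval_mul, β.eval_pbr (hS.2.1 z hz)]
    exact β.leib _ _ _

theorem eval_poly {S : Set R} (hS : β.Good S) {z : R} (hz : z ∈ S) (p q : R[X]) :
    ((β.poly hS).br p q).eval z = β.br (p.eval z) (q.eval z) :=
  β.eval_pbr (hS.2.1 z hz) p q

theorem poly_good {S : Set R} (hS : β.Good S) : (β.poly hS).Good (C '' S) := by
  refine ⟨hS.1.image C_injective.injOn, ?_, ?_⟩
  · rintro _ ⟨w, hw, rfl⟩ a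
    apply hS.ext
    intro z hz
    rw [β.eval_poly hS hz, eval_C, hS.2.1 w hw, eval_zero]
  · rintro _ ⟨z, hz, rfl⟩ _ ⟨w, hw, rfl⟩ h
    rw [← C_sub]
    exact (hS.2.2 z hz w hw (fun e => h (by rw [e]))).map C

theorem poly_sat {T : Set (Fr F)} {S : Set R} (hS : β.Good S) (hsat : Sat F (Alg β.m) T) :
    Sat F (Alg (β.poly hS).m) T := by
  refine sat_of_family (ι := S) (fun z => (toA β.m).toLinearMap ∘ₗ
    ((Polynomial.leval (z : R)).restrictScalars F) ∘ₗ (toA (β.poly hS).m).symm.toLinearMap)
    ?_ ?_ hsat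
  · intro z a b
    change ((β.poly hS).m a b).eval (z : R) = β.m (Polynomial.eval (z : R) a)
      (Polynomial.eval (z : R) b)
    rw [m_apply, m_apply, eval_add, eval_mul, β.eval_poly hS z.2]
  · intro b hb
    apply hS.ext (p := b) (q := 0)
    intro z hz
    rw [eval_zero]
    exact hb ⟨z, hz⟩

theorem nilp_of_good (h2 : (2 : F) ≠ 0) {T : Set (Fr F)} (hT : LocAdm F T)
    (hsat : Sat F (Alg β.m) T) {S : Set R} (hS : β.Good S) (f g : R) :
    IsNilpotent (β.br f g) := by
  have hS' := β.poly_good hS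
  let ev : R[X][X] →+* R := (evalRingHom f).comp (evalRingHom (C g))
  obtain ⟨n, hn⟩ := ((β.poly hS).poly hS').pow_mem h2 hT
    ((β.poly hS).poly_sat hS' (β.poly_sat hS hsat)) (RingHom.ker ev) (C (C f - X)) (C (C g) - X)
    (by simp [ev, RingHom.mem_ker]) (by simp [ev, RingHom.mem_ker])
  have e : ((β.poly hS).poly hS').br (C (C f - X)) (C (C g) - X) = C (C (β.br f g)) := by
    apply hS'.ext
    rintro _ ⟨w, hw, rfl⟩
    rw [(β.poly hS).eval_poly hS' ⟨w, hw, rfl⟩]
    apply hS.ext
    intro z hz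
    rw [β.eval_poly hS hz]
    simp only [eval_C, eval_sub, eval_X, map_sub, LinearMap.sub_apply]
    rw [hS.2.1 w hw, hS.2.1 w hw, β.anti z g, hS.2.1 z hz]
    simp
  rw [e, RingHom.mem_ker, map_pow] at hn
  exact ⟨n, by simpa [ev] using hn⟩

theorem br_pow_left (a b : R) (k : ℕ) : β.br b (a ^ (k + 1)) = ((k + 1 : ℕ) : R) * a ^ k * β.br b a := by
  induction k with
  | zero => simp
  | succ k ih => rw [pow_succ, β.leib, ih]; push_cast; ring

/-- the unital case -/
theorem br_eq_zero [Nontrivial R] (h2 : (2 : F) ≠ 0) {T : Set (Fr F)} (hT : LocAdm F T)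
    (hsat : Sat F (Alg β.m) T)
    (hs : ∀ I : Ideal R, (∀ a, ∀ x ∈ I, β.br a x ∈ I) → I = ⊥ ∨ I = ⊤) (f g : R) :
    β.br f g = 0 := by
  have hunit : ∀ z, β.Cas z → z ≠ 0 → IsUnit z := by
    intro z hz h0
    rcases hs (Ideal.span {z}) (by
      intro a x hx
      obtain ⟨b, rfl⟩ := Ideal.mem_span_singleton'.1 hx
      rw [hz.mul_right]
      exact Ideal.mul_mem_left _ _ (Ideal.mem_span_singleton_self z)) with h | h
    · exact absurd (Ideal.span_singleton_eq_bot.1 h) h0
    · exact Ideal.span_singleton_eq_top.1 h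
  have hsub : ∀ z w, β.Cas z → β.Cas w → β.Cas (z - w) := by
    intro z w hz hw a
    rw [map_sub, hz a, hw a, sub_zero]
  have hnil : ∀ f g : R, IsNilpotent (β.br f g) := by
    by_cases hZ : {z | β.Cas z}.Infinite
    · exact β.nilp_of_good h2 hT hsat ⟨hZ, fun z hz => hz,
        fun z hz w hw h => hunit _ (hsub z w hz hw) (sub_ne_zero.2 h)⟩
    · rw [Set.not_infinite] at hZ
      have hF : Finite F := by
        have : Finite {z | β.Cas z} := hZ
        refine Finite.of_injective (β := {z | β.Cas z}) (fun r => ⟨algebraMap F R r, ?_⟩) ?_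
        · intro a
          rw [Algebra.algebraMap_eq_smul_one, map_smul, β.one_right, smul_zero]
        · intro r s h
          exact (algebraMap F R).injective (congrArg Subtype.val h)
      obtain ⟨p, hp⟩ := CharP.exists F
      have hpp : p.Prime := CharP.char_is_prime F p
      haveI : Fact p.Prime := ⟨hpp⟩
      haveI : CharP R p := charP_of_injective_algebraMap (algebraMap F R).injective p
      have hfro : ∀ a : R, ∃ z, β.Cas z ∧ IsNilpotent (a - z) := by
        intro a
        have hap : β.Cas (a ^ p) := by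
          intro b
          obtain ⟨k, hk⟩ : ∃ k, p = k + 1 := ⟨p - 1, by have := hpp.pos; omega⟩
          have := β.br_pow_left a b k
          rw [← hk, CharP.cast_eq_zero] at this
          simpa using this
        have : Finite {z | β.Cas z} := hZ
        let fr : {z | β.Cas z} → {z | β.Cas z} := fun z => ⟨z.1 ^ p, Cas.pow z.2 p⟩
        have hinj : Function.Injective fr := by
          intro z w h
          have h1 : z.1 ^ p = w.1 ^ p := congrArg Subtype.val h
          by_contra hne
          have h3 := hunit _ (hsub z w z.2 w.2) (sub_ne_zero.2 (fun e => hne (Subtype.ext e)))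
          have h4 : (z.1 - w.1) ^ p = 0 := by rw [sub_pow_char, h1, sub_self]
          exact (h3.pow p).ne_zero h4
        obtain ⟨z, hz⟩ := Finite.surjective_of_injective hinj ⟨a ^ p, hap⟩
        have h1 : z.1 ^ p = a ^ p := congrArg Subtype.val hz
        exact ⟨z, z.2, p, by rw [sub_pow_char, h1, sub_self]⟩
      intro f g
      obtain ⟨z, hz, hfz⟩ := hfro f
      obtain ⟨w, hw, hgw⟩ := hfro g
      obtain ⟨n, hn⟩ := β.pow_mem h2 hT hsat (nilradical R) (f - z) (g - w) hfz hgw
      have e : β.br (f - z) (g - w) = β.br f g := by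
        rw [map_sub, hw, sub_zero, map_sub, LinearMap.sub_apply, β.anti z g, hz g]; simp
      rw [e] at hn
      exact IsNilpotent.of_pow hn
  rcases hs (nilradical R) (fun a x _ => hnil a x) with h | h
  · have : β.br f g ∈ nilradical R := hnil f g
    rw [h] at this
    simpa using this
  · have : (1 : R) ∈ nilradical R := by rw [h]; trivial
    exact absurd this not_isNilpotent_one

end GP

end Pool.Agent.H.MP_b27eb5_al
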