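import Pool.Agent.H.MP_b27eb5_al.GP

set_option maxHeartbeats 400000

namespace Pool.Agent.H.MP_b27eb5_al

universe u

theorem fg_pow {U : Type u} [CommRing U] (M : Ideal U) (k : ℕ) :
    ∀ r ∈ M ^ k, ∃ P : Ideal U, P.FG ∧ P ≤ M ∧ r ∈ P ^ k := by
  induction k with
  | zero => intro r _; exact ⟨⊥, Submodule.fg_bot, bot_le, by simp⟩
  | succ k ih =>
    intro r hr
    rw [pow_succ] at hr
    refine Submodule.mul_induction_on hr ?_ ?_
    · intro a ha b hb
      obtain ⟨P, h1, h2, h3⟩ := ih a ha
      refine ⟨P ⊔ Ideal.span {b}, Submodule.FG.sup h1 (Submodule.fg_span_singleton b),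
        sup_le h2 ((Ideal.span_singleton_le_iff_mem _).2 hb), ?_⟩
      rw [pow_succ]
      exact Ideal.mul_mem_mul (Ideal.pow_right_mono le_sup_left k h3)
        (Ideal.mem_sup_right (Ideal.mem_span_singleton_self b))
    · rintro a b ⟨P, h1, h2, h3⟩ ⟨Q, h4, h5, h6⟩
      exact ⟨P ⊔ Q, Submodule.FG.sup h1 h4, sup_le h2 h5,
        Ideal.add_mem _ (Ideal.pow_right_mono le_sup_left _ h3)
          (Ideal.pow_right_mono le_sup_right _ h6)⟩

/-- a differentiably simple ideal with nonzero square is generated by an idempotent -/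
theorem posner_ideal {U : Type u} [CommRing U] {ι : Type*} (d : ι → U → U)
    (hadd : ∀ i a b, d i (a + b) = d i a + d i b)
    (hl : ∀ i a b, d i (a * b) = d i a * b + a * d i b) (M : Ideal U)
    (hM : ∀ i, ∀ a ∈ M, d i a ∈ M)
    (hs : ∀ I : Ideal U, I ≤ M → (∀ i, ∀ a ∈ I, d i a ∈ I) → I = ⊥ ∨ I = M)
    (hne : ∃ x ∈ M, ∃ r ∈ M, x * r ≠ 0) : ∃ e ∈ M, ∀ a ∈ M, e * a = a := by
  obtain ⟨x, hx, r, hr, hxr⟩ := hne
  have hMM : M * M = M := by
    rcases hs (M * M) Ideal.mul_le_right (by
      intro i a ha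
      refine Submodule.mul_induction_on ha ?_ ?_
      · intro a ha b hb
        rw [hl]
        exact Ideal.add_mem _ (Ideal.mul_mem_mul (hM i a ha) hb) (Ideal.mul_mem_mul ha (hM i b hb))
      · intro a b ha hb
        rw [hadd]; exact Ideal.add_mem _ ha hb) with h | h
    · have := Ideal.mul_mem_mul hx hr
      rw [h] at this
      exact absurd (by simpa using this) hxr
    · exact h
  have hMk : ∀ k, M ≤ M ^ k := by
    intro k
    induction k with
    | zero => simp
    | succ k ih =>
      rw [pow_succ]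
      exact hMM.symm.le.trans (Ideal.mul_mono_left ih)
  let J : ℕ → Ideal U := fun k =>
    { carrier := {y | ∃ P0 : Ideal U, P0.FG ∧ P0 ≤ M ∧ ∀ P : Ideal U, P0 ≤ P → ∀ a : ℕ,
        x ∈ P ^ a → y ∈ P ^ (a + k)}
      add_mem' := by
        rintro y z ⟨P, h1, h2, h3⟩ ⟨Q, h4, h5, h6⟩
        exact ⟨P ⊔ Q, Submodule.FG.sup h1 h4, sup_le h2 h5, fun P' hP' a ha =>
          Ideal.add_mem _ (h3 P' (le_sup_left.trans hP') a ha) (h6 P' (le_sup_right.trans hP') a ha)⟩
      zero_mem' := ⟨⊥, Submodule.fg_bot, bot_le, fun _ _ _ _ => Ideal.zero_mem _⟩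
      smul_mem' := by
        rintro c y ⟨P, h1, h2, h3⟩
        exact ⟨P, h1, h2, fun P' hP' a ha => Ideal.mul_mem_left _ _ (h3 P' hP' a ha)⟩ }
  have hJ : ∀ k y, y ∈ J k ↔ ∃ P0 : Ideal U, P0.FG ∧ P0 ≤ M ∧ ∀ P : Ideal U, P0 ≤ P → ∀ a : ℕ,
        x ∈ P ^ a → y ∈ P ^ (a + k) := fun k y => Iff.rfl
  have hxJ : x ∈ J 1 := by
    rcases hs (M ⊓ ⨅ k, J k) inf_le_left (by
      intro i a ha
      rw [Ideal.mem_inf, Ideal.mem_iInf] at ha ⊢
      refine ⟨hM i a ha.1, fun k => ?_⟩
      obtain ⟨P, h1, h2, h3⟩ := (hJ _ _).1 (ha.2 (k + 1))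
      exact (hJ _ _).2 ⟨P, h1, h2, fun P' hP' n hn =>
        der_pow (d i) (hadd i) (hl i) P' (n + k) a (h3 P' hP' n hn)⟩) with h | h
    · have : x * r ∈ M ⊓ ⨅ k, J k := by
        rw [Ideal.mem_inf, Ideal.mem_iInf]
        refine ⟨Ideal.mul_mem_right _ _ hx, fun k => ?_⟩
        obtain ⟨P, h1, h2, h3⟩ := fg_pow M k r (hMk k hr)
        refine (hJ _ _).2 ⟨P, h1, h2, fun P' hP' n hn => ?_⟩
        rw [pow_add]
        exact Ideal.mul_mem_mul hn (Ideal.pow_right_mono hP' k h3)
      rw [h] at this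
      exact absurd (by simpa using this) hxr
    · have : x ∈ M ⊓ ⨅ k, J k := by rw [h]; exact hx
      rw [Ideal.mem_inf, Ideal.mem_iInf] at this
      exact this.2 1
  obtain ⟨P, hP1, hP2, hP3⟩ := (hJ _ _).1 hxJ
  have hxP : ∀ k, x ∈ P ^ k := by
    intro k
    induction k with
    | zero => simp
    | succ k ih => exact hP3 P le_rfl k ih
  have hle : (⨅ k, P ^ (k + 1)) ≤ P := (iInf_le _ 0).trans (by simp)
  have hPM : P = M := by
    rcases hs (⨅ k, P ^ (k + 1)) (hle.trans hP2) (by
      intro i a ha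
      rw [Ideal.mem_iInf] at ha ⊢
      exact fun k => der_pow (d i) (hadd i) (hl i) P (k + 1) a (ha (k + 1))) with h | h
    · have : x ∈ ⨅ k, P ^ (k + 1) := Ideal.mem_iInf.2 fun k => hxP _
      rw [h] at this
      have hx0 : x = 0 := by simpa using this
      exact absurd (by simp [hx0]) hxr
    · exact le_antisymm hP2 (h.symm.le.trans hle)
  obtain ⟨e, he1, he2⟩ := Submodule.exists_mem_and_smul_eq_self_of_fg_of_le_smul M M (hPM ▸ hP1)
    (by rw [smul_eq_mul]; exact hMM.ge)
  exact ⟨e, he1, fun a ha => he2 a ha⟩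

variable {F : Type u} [Field F]

section

variable {R : Type u} [NonUnitalCommRing R] [Module F R] [IsScalarTower F R R]
  [SMulCommClass F R R]

theorem posner (br : R →ₗ[F] R →ₗ[F] R) (leib : ∀ a b c, br a (b * c) = br a b * c + b * br a c)
    (hs : ∀ I : Submodule F R, (∀ a, ∀ x ∈ I, a * x ∈ I ∧ br a x ∈ I) → I = ⊥ ∨ I = ⊤)
    (hne : ∃ a b : R, a * b ≠ 0) : ∃ e : R, ∀ a, e * a = a := by
  let M : Ideal (Unitization F R) := RingHom.ker (Unitization.fstHom F R).toRingHom
  have hM : ∀ u, u ∈ M ↔ u.fst = 0 := fun u => Iff.rfl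
  have hM' : ∀ u ∈ M, u = ((u.snd : R) : Unitization F R) := by
    intro u hu
    ext
    · simpa using (hM u).1 hu
    · simp
  have hin : ∀ a : R, (a : Unitization F R) ∈ M := fun a => (hM _).2 (by simp)
  obtain ⟨e, he1, he2⟩ := posner_ideal (fun (a : R) (u : Unitization F R) =>
      ((br a u.snd : R) : Unitization F R))
    (by intro i a b; simp)
    (by
      intro i a b
      ext
      · simp
      · simp [leib]; abel) M (fun i a _ => hin _)
    (by
      intro I hI hd
      rcases hs ((I.restrictScalars F).comap (Unitization.inrHom F F R)) (by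
        intro a x hx
        simp only [Submodule.mem_comap, Submodule.restrictScalars_mem,
          Unitization.inrHom_apply] at hx ⊢
        refine ⟨?_, ?_⟩
        · rw [Unitization.inr_mul]; exact Ideal.mul_mem_left _ _ hx
        · simpa using hd a _ hx) with h | h
      · left
        rw [eq_bot_iff]
        intro u hu
        have h1 := hM' u (hI hu)
        have h2 : u.snd ∈ (I.restrictScalars F).comap (Unitization.inrHom F F R) := by
          simp only [Submodule.mem_comap, Submodule.restrictScalars_mem,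
            Unitization.inrHom_apply]
          rw [← h1]; exact hu
        rw [h] at h2
        have h3 : u.snd = 0 := by simpa using h2
        rw [h1, h3]; simp
      · right
        refine le_antisymm hI fun u hu => ?_
        have h2 : u.snd ∈ (I.restrictScalars F).comap (Unitization.inrHom F F R) := by
          rw [h]; trivial
        simp only [Submodule.mem_comap, Submodule.restrictScalars_mem,
          Unitization.inrHom_apply] at h2
        rw [hM' u hu]; exact h2)
    (by
      obtain ⟨a, b, hab⟩ := hne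
      refine ⟨a, hin a, b, hin b, fun h => hab ?_⟩
      rw [← Unitization.inr_mul] at h
      exact Unitization.inr_injective (R := F) (by simpa using h))
  refine ⟨e.snd, fun a => ?_⟩
  have := he2 a (hin a)
  rw [hM' e he1, ← Unitization.inr_mul] at this
  exact Unitization.inr_injective (R := F) this

theorem nonunital (h2 : (2 : F) ≠ 0) {T : Set (Fr F)} (hT : LocAdm F T)
    (br : R →ₗ[F] R →ₗ[F] R) (anti : ∀ a b, br a b = - br b a)
    (leib : ∀ a b c, br a (b * c) = br a b * c + b * br a c)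
    (hsat : Sat F (Alg (LinearMap.mul F R + br)) T)
    (hs : ∀ I : Submodule F R, (∀ a, ∀ x ∈ I, a * x ∈ I ∧ br a x ∈ I) → I = ⊥ ∨ I = ⊤)
    (hne : ∃ a b : R, a * b ≠ 0) :
    (∀ a b, br a b = 0) ∧ ∃ e : R, e ≠ 0 ∧ (∀ a, e * a = a) ∧ ∀ a : R, a ≠ 0 → ∃ b, a * b = e := by
  obtain ⟨e, he⟩ := posner br leib hs hne
  have he0 : e ≠ 0 := by
    rintro rfl
    obtain ⟨a, b, hab⟩ := hne
    apply hab
    rw [← he a]; simp
  letI : CommRing R :=
    { (inferInstance : NonUnitalCommRing R) with
      one := e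
      one_mul := he
      mul_one := fun a => by rw [mul_comm]; exact he a }
  letI : Algebra F R := Algebra.ofModule smul_mul_assoc mul_smul_comm
  haveI : Nontrivial R := ⟨e, 0, he0⟩
  have hs' : ∀ I : Ideal R, (∀ a, ∀ x ∈ I, br a x ∈ I) → I = ⊥ ∨ I = ⊤ := by
    intro I hI
    rcases hs (I.restrictScalars F) (fun a x hx => ⟨I.mul_mem_left a hx, hI a x hx⟩) with h | h
    · left
      exact (Submodule.restrictScalars_eq_bot_iff _ _ _).1 h
    · right
      exact (Submodule.restrictScalars_eq_top_iff _ _ _).1 h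
  have h0 : ∀ a b, br a b = 0 := (GP.mk br anti leib : GP F R).br_eq_zero h2 hT hsat hs'
  refine ⟨h0, e, he0, he, fun a ha => ?_⟩
  rcases hs' (Ideal.span {a}) (fun b x _ => by rw [h0]; exact Ideal.zero_mem _) with h | h
  · exact absurd (Ideal.span_singleton_eq_bot.1 h) ha
  · obtain ⟨b, hb⟩ := (Ideal.span_singleton_eq_top.1 h).exists_right_inv
    exact ⟨b, hb⟩

end

section

variable {A : Type u} [NonUnitalNonAssocRing A] [Module F A] [IsScalarTower F A A]
  [SMulCommClass F A A]

/-- the symmetric part of the product -/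
noncomputable def jm : A →ₗ[F] A →ₗ[F] A :=
  (2⁻¹ : F) • (LinearMap.mul F A + (LinearMap.mul F A).flip)

/-- the skew part of the product -/
noncomputable def jb : A →ₗ[F] A →ₗ[F] A :=
  (2⁻¹ : F) • (LinearMap.mul F A - (LinearMap.mul F A).flip)

theorem jm_apply (a b : A) : jm (F := F) a b = (2⁻¹ : F) • (a * b + b * a) := by simp [jm]

theorem jb_apply (a b : A) : jb (F := F) a b = (2⁻¹ : F) • (a * b - b * a) := by simp [jb]

theorem jm_comm (a b : A) : jm (F := F) a b = jm (F := F) b a := by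
  rw [jm_apply, jm_apply, add_comm]

theorem jb_anti (a b : A) : jb (F := F) a b = - jb (F := F) b a := by
  rw [jb_apply, jb_apply, ← smul_neg, neg_sub]

theorem jm_add_jb (h2 : (2 : F) ≠ 0) (a b : A) : jm (F := F) a b + jb (F := F) a b = a * b := by
  rw [jm_apply, jb_apply, ← smul_add, show a * b + b * a + (a * b - b * a) = (2 : F) • (a * b) by
    rw [two_smul]; abel, smul_smul, inv_mul_cancel₀ h2, one_smul]

theorem cm_eq (h2 : (2 : F) ≠ 0) (a b : A) : cm a b = (2 : F) • jb (F := F) a b := by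
  rw [jb_apply, smul_smul, mul_inv_cancel₀ h2, one_smul, cm]

theorem half {V : Type u} [AddCommGroup V] [Module F V] (h2 : (2 : F) ≠ 0) {v : V}
    (h : v + v = 0) : v = 0 := by
  rw [← two_smul F] at h
  exact (smul_eq_zero.1 h).resolve_left h2

theorem kok_split (h2 : (2 : F) ≠ 0) (hK : IsKokoris A) (a b c : A) :
    (jm (F := F) (jm (F := F) a b) c - jm (F := F) a (jm (F := F) b c)) +
      (jb (F := F) (jm (F := F) a b) c + jm (F := F) (jb (F := F) a b) c -
        jm (F := F) a (jb (F := F) b c) - jb (F := F) a (jm (F := F) b c)) = 0 := by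
  have h := hK a b c
  simp only [cm_eq h2, map_smul, LinearMap.smul_apply, smul_smul] at h
  rw [← jm_add_jb h2 a b, ← jm_add_jb h2 b c, ← jm_add_jb h2 (_ + _) c,
    ← jm_add_jb h2 a (_ + _)] at h
  simp only [map_add, LinearMap.add_apply] at h
  rw [jb_anti a c, jb_anti (jb (F := F) b c) a, map_neg, LinearMap.neg_apply,
    ← Nat.cast_smul_eq_nsmul F] at h
  have h4 : (4 : F) ≠ 0 := by
    rw [show (4 : F) = 2 * 2 by norm_num]; exact mul_ne_zero h2 h2
  apply (smul_eq_zero_iff_right h4).1
  linear_combination (norm := module) -h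

theorem kok_parts (h2 : (2 : F) ≠ 0) (hK : IsKokoris A) :
    (∀ a b c : A, jm (F := F) (jm (F := F) a b) c = jm (F := F) a (jm (F := F) b c)) ∧
    ∀ a b c : A, jb (F := F) a (jm (F := F) b c) =
      jm (F := F) (jb (F := F) a b) c + jm (F := F) b (jb (F := F) a c) := by
  have hE : ∀ a b c : A, jb (F := F) (jm (F := F) a b) c + jm (F := F) (jb (F := F) a b) c -
        jm (F := F) a (jb (F := F) b c) - jb (F := F) a (jm (F := F) b c) = 0 := by
    intro a b c
    apply half h2
    have h1 := kok_split h2 hK a b c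
    have h3 := kok_split h2 hK c b a
    rw [jm_comm c b, jm_comm b a, jm_comm (jm (F := F) b c) a, jm_comm c (jm (F := F) a b),
      jb_anti c b, jb_anti b a, jb_anti (jm (F := F) b c) a, jb_anti c (jm (F := F) a b),
      map_neg, map_neg, LinearMap.neg_apply, jm_comm (jb (F := F) b c) a,
      jm_comm c (jb (F := F) a b)] at h3
    linear_combination (norm := module) h1 + h3
  refine ⟨fun a b c => ?_, fun a b c => ?_⟩
  · have h1 := kok_split h2 hK a b c
    rw [hE, add_zero, sub_eq_zero] at h1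
    exact h1
  · rw [← sub_eq_zero]
    apply half h2
    have h1 := hE a b c
    have h3 := hE b c a
    have h4 := hE c a b
    rw [jb_anti (jm (F := F) b c) a, jb_anti c a, map_neg, jm_comm (jb (F := F) b c) a] at h3
    rw [jb_anti (jm (F := F) c a) b, jb_anti c a, map_neg, LinearMap.neg_apply,
      jb_anti c (jm (F := F) a b), jm_comm (jb (F := F) a c) b, jm_comm c (jb (F := F) a b)] at h4
    linear_combination (norm := module) -h1 - h3 + h4

theorem main (h2 : (2 : F) ≠ 0) {T : Set (Fr F)} (hT : LocAdm F T) (hsat : Sat F A T)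
    (hK : IsKokoris A) (hs : IsSimple F A) : IsFld A := by
  by_cases h0 : ∀ a b : A, jm (F := F) a b = 0
  · exfalso
    have hanti : ∀ a b : A, a * b = -(b * a) := by
      intro a b
      rw [← jm_add_jb h2 a b, ← jm_add_jb h2 b a, h0, h0, zero_add, zero_add, jb_anti]
    refine not_locNil_of_simple hs hanti (hT A hsat fun b => half h2 ?_)
    nth_rewrite 1 [hanti b b]
    simp
  push Not at h0
  obtain ⟨hassoc, hleib⟩ := kok_parts h2 hK
  letI : NonUnitalCommRing (Alg (jm (F := F) (A := A))) :=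
    { (inferInstance : NonUnitalNonAssocRing (Alg (jm (F := F) (A := A)))) with
      mul_assoc := hassoc
      mul_comm := jm_comm (F := F) (A := A) }
  obtain ⟨h1, e, he0, he1, he2⟩ := @nonunital F _ (Alg (jm (F := F) (A := A))) _ _
    (instIsScalarTowerAlg _) (instSMulCommClassAlg _) h2 T hT
    (jb (F := F) (A := A)) (jb_anti (F := F) (A := A)) hleib
    (sat_of_inj (C := A) (LinearMap.id (R := F) (M := A))
      (fun a b => jm_add_jb (F := F) (A := A) h2 a b) (fun _ _ h => h) hsat)
    (by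
      intro I hI
      refine hs.2 I fun a x hx => ?_
      have h3 : jm (F := F) a x ∈ I := (hI a x hx).1
      have h4 : jb (F := F) a x ∈ I := (hI a x hx).2
      rw [← jm_add_jb h2 a x, ← jm_add_jb h2 x a, jm_comm x a, jb_anti x a]
      exact ⟨I.add_mem h3 h4, I.add_mem h3 (I.neg_mem h4)⟩) h0
  have h5 : ∀ a b : A, a * b = jm (F := F) a b := by
    intro a b
    have h6 : jb (F := F) a b = 0 := h1 a b
    rw [← jm_add_jb h2 a b, h6, add_zero]
  refine ⟨fun a b => by rw [h5, h5, jm_comm], fun a b c => by simp only [h5, hassoc],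
    e, he0, fun a => by rw [h5]; exact he1 a, fun a ha => ?_⟩
  obtain ⟨b, hb⟩ := he2 a ha
  exact ⟨b, by rw [h5]; exact hb⟩

end

end Pool.Agent.H.MP_b27eb5_al
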