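import Pool.Agent.H.MP_b27eb5_al.Defs

set_option maxHeartbeats 400000

namespace Pool.Agent.H.MP_b27eb5_al

universe u

variable {F : Type u} [Field F]

/-- a vector space with a bilinear product, as an algebra -/
def Alg {V : Type u} [AddCommGroup V] [Module F V] (_m : V →ₗ[F] V →ₗ[F] V) : Type u := V

section

variable {V : Type u} [AddCommGroup V] [Module F V] (m : V →ₗ[F] V →ₗ[F] V)

instance : AddCommGroup (Alg m) := inferInstanceAs (AddCommGroup V)
instance : Module F (Alg m) := inferInstanceAs (Module F V)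

/-- the identity map -/
def toA : V ≃ₗ[F] Alg m := LinearEquiv.refl F V

instance : Mul (Alg m) := ⟨fun a b => toA m (m ((toA m).symm a) ((toA m).symm b))⟩

theorem mul_def (a b : Alg m) : a * b = toA m (m ((toA m).symm a) ((toA m).symm b)) := rfl

instance : NonUnitalNonAssocRing (Alg m) :=
  { (inferInstance : AddCommGroup (Alg m)), (inferInstance : Mul (Alg m)) with
    left_distrib := fun a b c => by simp [mul_def]
    right_distrib := fun a b c => by simp [mul_def]
    zero_mul := fun a => by simp [mul_def]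
    mul_zero := fun a => by simp [mul_def] }

instance : IsScalarTower F (Alg m) (Alg m) :=
  ⟨fun r a b => by simp [mul_def]⟩

instance : SMulCommClass F (Alg m) (Alg m) :=
  ⟨fun r a b => by simp [mul_def]⟩

theorem toA_mul (a b : V) : toA m a * toA m b = toA m (m a b) := rfl

end

section

variable {B C : Type u} [NonUnitalNonAssocRing B] [Module F B] [NonUnitalNonAssocRing C]
  [Module F C]

/-- a linear multiplicative map as a homomorphism -/
def mkHom (l : B →ₗ[F] C) (h : ∀ a b, l (a * b) = l a * l b) : B →ₙₐ[F] C where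
  toFun := l
  map_smul' := fun r a => by simp
  map_zero' := by simp
  map_add' := fun a b => by simp
  map_mul' := h

theorem sat_of_family {ι : Type*} {T : Set (Fr F)} (l : ι → B →ₗ[F] C)
    (h : ∀ i a b, l i (a * b) = l i a * l i b) (hinj : ∀ b, (∀ i, l i b = 0) → b = 0)
    (hC : Sat F C T) : Sat F B T := by
  intro f hf g
  apply hinj
  intro i
  exact hC f hf ((mkHom (l i) (h i)).comp g)

theorem sat_of_inj {T : Set (Fr F)} (l : B →ₗ[F] C)
    (h : ∀ a b, l (a * b) = l a * l b) (hinj : Function.Injective l)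
    (hC : Sat F C T) : Sat F B T :=
  sat_of_family (ι := Unit) (fun _ => l) (fun _ => h)
    (fun b hb => hinj (by simpa using hb ())) hC

theorem sat_of_surj [IsScalarTower F B B] [SMulCommClass F B B] [IsScalarTower F C C]
    [SMulCommClass F C C] {T : Set (Fr F)} (l : B →ₗ[F] C)
    (h : ∀ a b, l (a * b) = l a * l b) (hs : Function.Surjective l)
    (hB : Sat F B T) : Sat F C T := by
  intro f hf g
  choose x hx using fun i : ℕ => hs (g (FreeNonUnitalNonAssocAlgebra.of F i))
  have : g = (mkHom l h).comp (FreeNonUnitalNonAssocAlgebra.lift F x) := by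
    apply FreeNonUnitalNonAssocAlgebra.hom_ext
    intro i
    rw [NonUnitalAlgHom.comp_apply, FreeNonUnitalNonAssocAlgebra.lift_of_apply]
    exact (hx i).symm
  rw [this, NonUnitalAlgHom.comp_apply, hB f hf]
  simp

theorem locNil_foldr [IsScalarTower F B B] [SMulCommClass F B B] (h : LocNil F B)
    (s : Finset B) (a : B) :
    ∃ n : ℕ, ∀ l : List B, (∀ x ∈ l, x ∈ s) → n ≤ l.length → l.foldr (· * ·) a = 0 := by
  classical
  obtain ⟨n, hn⟩ := h (insert a s)
  refine ⟨n, fun l hl hlen => ?_⟩
  have key : ∀ l : List B, (∀ x ∈ l, x ∈ s) →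
      ∃ w : FreeMagma (NonUnitalAlgebra.adjoin F ((insert a s : Finset B) : Set B)),
        w.length = l.length + 1 ∧ FreeMagma.lift Subtype.val w = l.foldr (· * ·) a := by
    intro l
    induction l with
    | nil =>
      intro _
      exact ⟨FreeMagma.of ⟨a, NonUnitalAlgebra.subset_adjoin F (by simp)⟩, rfl, rfl⟩
    | cons x l ih =>
      intro hl
      obtain ⟨w, hw1, hw2⟩ := ih (fun y hy => hl y (List.mem_cons_of_mem _ hy))
      refine ⟨FreeMagma.of ⟨x, NonUnitalAlgebra.subset_adjoin F
        (by simp [hl x List.mem_cons_self])⟩ * w, ?_, ?_⟩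
      · simp [hw1]; omega
      · rw [map_mul, hw2]; rfl
  obtain ⟨w, hw1, hw2⟩ := key l hl
  rw [← hw2]
  exact hn w (by omega)

theorem foldr_add (l : List B) (a b : B) :
    l.foldr (· * ·) (a + b) = l.foldr (· * ·) a + l.foldr (· * ·) b := by
  induction l with
  | nil => rfl
  | cons x l ih => simp [ih, mul_add]

theorem foldr_smul [SMulCommClass F B B] (l : List B) (r : F) (a : B) :
    l.foldr (· * ·) (r • a) = r • l.foldr (· * ·) a := by
  induction l with
  | nil => rfl
  | cons x l ih => simp [ih, mul_smul_comm]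

theorem foldr_zero (l : List B) : l.foldr (· * ·) (0 : B) = 0 := by
  induction l with
  | nil => rfl
  | cons x l ih => simp [ih]

/-- a simple anticommutative algebra is not locally nilpotent -/
theorem not_locNil_of_simple [IsScalarTower F B B] [SMulCommClass F B B]
    (hs : IsSimple F B) (hanti : ∀ a b : B, a * b = - (b * a)) : ¬ LocNil F B := by
  classical
  intro hL
  obtain ⟨⟨c, a, hca⟩, hsimp⟩ := hs
  let W : Finset B → ℕ → Submodule F B := fun s k =>
    Submodule.span F {y | ∃ l : List B, (∀ x ∈ l, x ∈ s) ∧ k ≤ l.length ∧ y = l.foldr (· * ·) a}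
  have Wmono : ∀ s t k, s ⊆ t → W s k ≤ W t k := by
    intro s t k hst
    apply Submodule.span_mono
    rintro y ⟨l, h1, h2, h3⟩
    exact ⟨l, fun x hx => hst (h1 x hx), h2, h3⟩
  have Wfold : ∀ (s : Finset B) (j k : ℕ) (l : List B), (∀ x ∈ l, x ∈ s) → j ≤ l.length →
      ∀ y ∈ W s k, l.foldr (· * ·) y ∈ W s (j + k) := by
    intro s j k l hl hj y hy
    induction hy using Submodule.span_induction with
    | mem y hy =>
      obtain ⟨l', h1, h2, rfl⟩ := hy
      apply Submodule.subset_span
      refine ⟨l ++ l', ?_, ?_, ?_⟩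
      · intro x hx
        rcases List.mem_append.1 hx with h | h
        · exact hl x h
        · exact h1 x h
      · simp; omega
      · rw [List.foldr_append]
    | zero => rw [foldr_zero]; exact Submodule.zero_mem _
    | add y z _ _ hy hz => rw [foldr_add]; exact Submodule.add_mem _ hy hz
    | smul r y _ hy => rw [foldr_smul]; exact Submodule.smul_mem _ _ hy
  let I : Submodule F B :=
    { carrier := {y | ∃ s : Finset B, y ∈ W s 1}
      add_mem' := by
        rintro y z ⟨s, hs⟩ ⟨t, ht⟩
        exact ⟨s ∪ t, Submodule.add_mem _ (Wmono _ _ _ Finset.subset_union_left hs)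
          (Wmono _ _ _ Finset.subset_union_right ht)⟩
      zero_mem' := ⟨∅, Submodule.zero_mem _⟩
      smul_mem' := by
        rintro r y ⟨s, hs⟩
        exact ⟨s, Submodule.smul_mem _ _ hs⟩ }
  have hleft : ∀ b : B, ∀ x ∈ I, b * x ∈ I := by
    rintro b x ⟨s, hs⟩
    refine ⟨insert b s, ?_⟩
    have := Wfold (insert b s) 0 1 [b] (by simp) (by simp) x
      (Wmono _ _ _ (Finset.subset_insert _ _) hs)
    simpa using this
  have hI := hsimp I (fun b x hx => ⟨hleft b x hx, by
    rw [hanti]; exact Submodule.neg_mem _ (hleft b x hx)⟩)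
  have hcaI : c * a ∈ I := ⟨{c}, Submodule.subset_span ⟨[c], by simp, by simp, rfl⟩⟩
  rcases hI with hI | hI
  · rw [hI] at hcaI
    exact hca (by simpa using hcaI)
  · have ha : a ∈ I := by rw [hI]; trivial
    obtain ⟨s, hs⟩ := ha
    have hk : ∀ k, a ∈ W s k := by
      intro k
      induction k with
      | zero => exact Submodule.subset_span ⟨[], by simp, by simp, rfl⟩
      | succ k ih =>
        have : W s k ≤ W s (k + 1) := by
          apply Submodule.span_le.2
          rintro y ⟨l, h1, h2, rfl⟩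
          exact Wfold s k 1 l h1 h2 a hs
        exact this ih
    obtain ⟨n, hn⟩ := locNil_foldr hL s a
    have : W s n ≤ ⊥ := by
      apply Submodule.span_le.2
      rintro y ⟨l, h1, h2, rfl⟩
      simpa using hn l h1 h2
    have ha0 : a = 0 := by simpa using this (hk n)
    exact hca (by simp [ha0])

end

section

variable {V : Type u} [AddCommGroup V] [Module F V] (m : V →ₗ[F] V →ₗ[F] V)

/-- anticommutative sections are locally nilpotent -/
theorem section_nil {T : Set (Fr F)} (hT : LocAdm F T) (hsat : Sat F (Alg m) T)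
    (S I : Submodule F V) (hS : ∀ a ∈ S, ∀ b ∈ S, m a b ∈ S)
    (hI : ∀ a ∈ S, ∀ b ∈ S, b ∈ I → m a b ∈ I ∧ m b a ∈ I) (hsq : ∀ a ∈ S, m a a ∈ I)
    (h e : V) (hh : h ∈ S) (he : e ∈ S) : ∃ n : ℕ, (m h)^[n] e ∈ I := by
  classical
  let mS : S →ₗ[F] S →ₗ[F] S := LinearMap.mk₂ F
    (fun a b => ⟨m a b, hS _ a.2 _ b.2⟩)
    (fun a b c => by ext; simp) (fun r a b => by ext; simp)
    (fun a b c => by ext; simp) (fun r a b => by ext; simp)
  have hmS : ∀ a b : S, ((mS a b : S) : V) = m a b := fun a b => rfl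
  let I' : Submodule F S := I.comap S.subtype
  let mQ : (S ⧸ I') →ₗ[F] (S ⧸ I') →ₗ[F] (S ⧸ I') :=
    LinearMap.liftQ₂ I' I' (mS.compr₂ I'.mkQ)
      (by
        intro a ha
        ext b
        simp only [LinearMap.compr₂_apply, Submodule.mkQ_apply, LinearMap.zero_apply,
          Submodule.Quotient.mk_eq_zero]
        exact (hI b b.2 a a.2 ha).2)
      (by
        intro a ha
        ext b
        simp only [LinearMap.flip_apply, LinearMap.compr₂_apply, Submodule.mkQ_apply,
          LinearMap.zero_apply, Submodule.Quotient.mk_eq_zero]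
        exact (hI b b.2 a a.2 ha).1)
  have hmQ : ∀ a b : S, mQ (I'.mkQ a) (I'.mkQ b) = I'.mkQ (mS a b) := fun a b => rfl
  have h1 : Sat F (Alg mS) T :=
    sat_of_inj ((toA m).toLinearMap ∘ₗ S.subtype ∘ₗ (toA mS).symm.toLinearMap)
      (fun a b => rfl) (fun a b hab => Subtype.ext hab) hsat
  have h2 : Sat F (Alg mQ) T :=
    sat_of_surj ((toA mQ).toLinearMap ∘ₗ I'.mkQ ∘ₗ (toA mS).symm.toLinearMap)
      (fun a b => rfl) (Submodule.mkQ_surjective I') h1
  have h3 : ∀ b : Alg mQ, b * b = 0 := by
    intro b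
    obtain ⟨a, rfl⟩ := Submodule.mkQ_surjective I' b
    change I'.mkQ (mS a a) = 0
    rw [Submodule.mkQ_apply, Submodule.Quotient.mk_eq_zero]
    exact hsq a a.2
  obtain ⟨n, hn⟩ := locNil_foldr (hT _ h2 h3) {toA mQ (I'.mkQ ⟨h, hh⟩)} (toA mQ (I'.mkQ ⟨e, he⟩))
  have h4 := hn (List.replicate n (toA mQ (I'.mkQ ⟨h, hh⟩)))
    (fun x hx => by simp [List.eq_of_mem_replicate hx]) (by simp)
  have h5 : ∀ k : ℕ, ∃ y : S, (y : V) = (m h)^[k] e ∧
      (List.replicate k (toA mQ (I'.mkQ ⟨h, hh⟩))).foldr (· * ·) (toA mQ (I'.mkQ ⟨e, he⟩)) =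
        toA mQ (I'.mkQ y) := by
    intro k
    induction k with
    | zero => exact ⟨⟨e, he⟩, rfl, rfl⟩
    | succ k ih =>
      obtain ⟨y, hy1, hy2⟩ := ih
      refine ⟨mS ⟨h, hh⟩ y, ?_, ?_⟩
      · rw [hmS, Function.iterate_succ_apply', hy1]
      · rw [List.replicate_succ, List.foldr_cons, hy2]; rfl
  obtain ⟨y, hy1, hy2⟩ := h5 n
  refine ⟨n, ?_⟩
  rw [← hy1]
  rw [hy2] at h4
  have h6 : I'.mkQ y = 0 := h4
  rw [Submodule.mkQ_apply, Submodule.Quotient.mk_eq_zero] at h6
  exact h6

end

theorem locAdm_of_adm {T : Set (Fr F)} (h : Adm F T) : LocAdm F T := by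
  obtain ⟨n, hn⟩ := h
  intro B _ _ _ _ hsat hanti s
  refine ⟨n, fun w hw => ?_⟩
  classical
  have hanti' : ∀ a b : B, a * b + b * a = 0 := by
    intro a b
    have := hanti (a + b)
    rw [add_mul, mul_add, mul_add, hanti a, hanti b] at this
    simpa using this
  -- relabel the leaves
  have key : ∀ (w : FreeMagma (NonUnitalAlgebra.adjoin F (s : Set B))) (k : ℕ),
      ∃ (w' : FreeMagma (Fr F)) (x : ℕ → B), w'.length = w.length ∧
        ∀ y : ℕ → B, (∀ i, k ≤ i → i < k + w.length → y i = x i) →
          FreeNonUnitalNonAssocAlgebra.lift F y (FreeMagma.lift id w') =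
            FreeMagma.lift Subtype.val w := by
    intro w
    induction w with
    | ih1 a =>
      intro k
      refine ⟨FreeMagma.of (FreeNonUnitalNonAssocAlgebra.of F k), fun _ => a, rfl, ?_⟩
      intro y hy
      simp [hy k le_rfl (by simp)]
    | ih2 u v ihu ihv =>
      intro k
      obtain ⟨u', x, hu1, hu2⟩ := ihu k
      obtain ⟨v', x', hv1, hv2⟩ := ihv (k + u.length)
      refine ⟨u' * v', fun i => if i < k + u.length then x i else x' i, by simp [hu1, hv1], ?_⟩
      intro y hy
      have hlen : (u * v).length = u.length + v.length := by simp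
      rw [map_mul, map_mul, map_mul, hu2 y, hv2 y]
      · intro i h1 h2
        rw [hy i (by omega) (by omega)]
        exact if_neg (by omega)
      · intro i h1 h2
        rw [hy i (by omega) (by omega)]
        exact if_pos h2
  obtain ⟨w', x, h1, h2⟩ := key w 0
  rw [← h2 x (fun _ _ _ => rfl)]
  obtain ⟨g, hg, hid⟩ := hn w' (by omega)
  have h3 := hid B hsat _ rfl (FreeNonUnitalNonAssocAlgebra.lift F x)
  have h4 : FreeNonUnitalNonAssocAlgebra.lift F x g = 0 := by
    clear hid h3
    induction hg using Submodule.span_induction with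
    | mem p hp =>
      obtain ⟨a, b, rfl⟩ := hp
      rw [map_add, map_mul, map_mul, hanti']
    | zero => simp
    | add y z _ _ hy hz => rw [map_add, hy, hz, add_zero]
    | smul r y _ hy => rw [map_smul, hy, smul_zero]
  rw [map_sub, h4, sub_zero] at h3
  exact h3

end Pool.Agent.H.MP_b27eb5_al
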